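import Pool.Agent.H68.SLF.Global
import Pool.Agent.H68.SLF.LevelC
import Pool.Agent.H20.SLF.M1
import Pool.Agent.H21.SLF.M7
import Pool.Agent.H95.SLF.M3

/-! The filling length of `SL(3, Z)` is linear for every finite presentation. -/

set_option autoImplicit false

namespace Pool.Agent.H31.INS.Slf

open Pool.Agent.H68.SLF

/-- words in the letters `a`, `a⁻¹` (`a ∈ A`) -/
abbrev Word (A : Type) := List (A × Bool)

/-- the inverse word -/
def inv {A : Type} (w : Word A) : Word A := (w.map fun x => (x.1, !x.2)).reverse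

/-- the relators as elements of the free group -/
def Rels {A : Type} (R : Set (Word A)) : Set (FreeGroup A) := {g | ∃ r ∈ R, FreeGroup.mk r = g}

/-- finite presentation, relators closed under inverses and cyclic permutations -/
def Presents {A : Type} (R : Set (Word A)) (G : Type) [Group G] : Prop :=
  Finite A ∧ R.Finite ∧ (∀ r ∈ R, inv r ∈ R) ∧ (∀ u v, u ++ v ∈ R → v ++ u ∈ R) ∧
    Nonempty (PresentedGroup (Rels R) ≃* G)

/-- a move -/
def Move {A : Type} (R : Set (Word A)) (w w' : Word A) : Prop :=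
  ∃ p q u v : Word A, w = p ++ u ++ q ∧ w' = p ++ v ++ q ∧
    ((∃ x : A × Bool, (u = [x, (x.1, !x.2)] ∧ v = []) ∨ (u = [] ∧ v = [x, (x.1, !x.2)])) ∨
      u ++ inv v ∈ R)

/-- null-homotopic word -/
def Null {A : Type} (R : Set (Word A)) (w : Word A) : Prop :=
  FreeGroup.mk w ∈ Subgroup.normalClosure (Rels R)

/-- there is a null-sequence of words of length at most `N` -/
def FillsIn {A : Type} (R : Set (Word A)) (w : Word A) (N : ℕ) : Prop :=
  ∃ (m : ℕ) (s : ℕ → Word A), s 0 = w ∧ s m = [] ∧ (∀ i ≤ m, (s i).length ≤ N) ∧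
    ∀ i < m, Move R (s i) (s (i + 1))

/-- `F` is the filling length function -/
def IsFL {A : Type} (R : Set (Word A)) (F : ℕ → ℕ) : Prop :=
  ∀ n, IsLeast {N | ∀ w, Null R w → w.length ≤ n → FillsIn R w N} (F n)

section

variable {A : Type} {R : Set (Word A)}

theorem inv_eq (w : Word A) : inv w = FreeGroup.invRev w := rfl

theorem inv_inv' (w : Word A) : inv (inv w) = w := by
  rw [inv_eq, inv_eq]; exact FreeGroup.invRev_invRev

theorem inv_append (u v : Word A) : inv (u ++ v) = inv v ++ inv u := by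
  simp [inv]

theorem mk_inv (w : Word A) : FreeGroup.mk (inv w) = (FreeGroup.mk w)⁻¹ := by
  rw [inv_eq, FreeGroup.inv_mk]

theorem Move.symm (hR : ∀ r ∈ R, inv r ∈ R) {u v : Word A} (h : Move R u v) : Move R v u := by
  obtain ⟨p, q, a, b, h1, h2, h3⟩ := h
  refine ⟨p, q, b, a, h2, h1, ?_⟩
  rcases h3 with ⟨x, ⟨h4, h5⟩ | ⟨h4, h5⟩⟩ | h4
  · exact Or.inl ⟨x, Or.inr ⟨h5, h4⟩⟩
  · exact Or.inl ⟨x, Or.inl ⟨h5, h4⟩⟩
  · right
    have := hR _ h4
    rwa [inv_append, inv_inv'] at this

theorem Move.ctx {u v : Word A} (h : Move R u v) (a b : Word A) :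
    Move R (a ++ (u ++ b)) (a ++ (v ++ b)) := by
  obtain ⟨p, q, c, d, h1, h2, h3⟩ := h
  refine ⟨a ++ p, q ++ b, c, d, ?_, ?_, h3⟩
  · rw [h1]; simp [List.append_assoc]
  · rw [h2]; simp [List.append_assoc]

/-- bounded homotopies -/
def K (R : Set (Word A)) (n : ℕ) (u v : Word A) : Prop :=
  Relation.ReflTransGen (fun x y => Move R x y ∧ x.length ≤ n ∧ y.length ≤ n) u v

theorem K.refl {n : ℕ} (u : Word A) : K R n u u := Relation.ReflTransGen.refl

theorem K.trans {n : ℕ} {u v w : Word A} (h1 : K R n u v) (h2 : K R n v w) : K R n u w :=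
  Relation.ReflTransGen.trans h1 h2

theorem K.symm (hR : ∀ r ∈ R, inv r ∈ R) {n : ℕ} {u v : Word A} (h : K R n u v) : K R n v u := by
  induction h with
  | refl => exact Relation.ReflTransGen.refl
  | tail _ h ih => exact Relation.ReflTransGen.head ⟨h.1.symm hR, h.2.2, h.2.1⟩ ih

theorem K.mono {n m : ℕ} {u v : Word A} (h : K R n u v) (hm : n ≤ m) : K R m u v := by
  induction h with
  | refl => exact Relation.ReflTransGen.refl
  | tail _ h ih => exact Relation.ReflTransGen.tail ih ⟨h.1, h.2.1.trans hm, h.2.2.trans hm⟩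

theorem K.ctx {n m : ℕ} {u v : Word A} (h : K R n u v) (a b : Word A)
    (hm : n + a.length + b.length ≤ m) : K R m (a ++ (u ++ b)) (a ++ (v ++ b)) := by
  induction h with
  | refl => exact Relation.ReflTransGen.refl
  | tail _ h ih =>
    refine Relation.ReflTransGen.tail ih ⟨h.1.ctx a b, ?_, ?_⟩
    · have := h.2.1; simp only [List.length_append]; omega
    · have := h.2.2; simp only [List.length_append]; omega

theorem K.seq {n : ℕ} {u v : Word A} (h : K R n u v) (hu : u.length ≤ n) :
    ∃ (m : ℕ) (s : ℕ → Word A), s 0 = u ∧ s m = v ∧ (∀ i ≤ m, (s i).length ≤ n) ∧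
      ∀ i < m, Move R (s i) (s (i + 1)) := by
  induction h with
  | refl => exact ⟨0, fun _ => u, rfl, rfl, fun _ _ => hu, fun i hi => absurd hi (by omega)⟩
  | @tail b c _ h ih =>
    obtain ⟨m, s, h0, hm, hl, hs⟩ := ih
    refine ⟨m + 1, fun i => if i ≤ m then s i else c, by simpa using h0, by simp, ?_, ?_⟩
    · intro i hi
      by_cases him : i ≤ m
      · simpa [him] using hl i him
      · simpa [him] using h.2.2
    · intro i hi
      by_cases him : i + 1 ≤ m
      · have h1 : i ≤ m := by omega
        simpa [him, h1] using hs i (by omega)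
      · have h1 : i = m := by omega
        subst h1
        simpa [hm] using h.1

theorem K.red {u v : Word A} (h : FreeGroup.Red u v) : K R u.length u v := by
  induction h using Relation.ReflTransGen.head_induction_on with
  | refl => exact K.refl _
  | @head a c h1 _ ih =>
    have hl : c.length ≤ a.length := by
      have := h1.length
      omega
    refine Relation.ReflTransGen.head ⟨?_, le_rfl, hl⟩ (K.mono ih hl)
    cases h1 with
    | @not L1 L2 x b =>
      exact ⟨L1, L2, [(x, b), (x, !b)], [], by simp, by simp, Or.inl ⟨(x, b), Or.inl ⟨rfl, rfl⟩⟩⟩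

/-- homotopic words -/
def E (R : Set (Word A)) (u v : Word A) : Prop := ∃ N, K R N u v

theorem E.trans {u v w : Word A} (h1 : E R u v) (h2 : E R v w) : E R u w := by
  obtain ⟨N, h1⟩ := h1
  obtain ⟨M, h2⟩ := h2
  exact ⟨max N M, (h1.mono (le_max_left _ _)).trans (h2.mono (le_max_right _ _))⟩

theorem E.symm (hR : ∀ r ∈ R, inv r ∈ R) {u v : Word A} (h : E R u v) : E R v u := by
  obtain ⟨N, h⟩ := h
  exact ⟨N, h.symm hR⟩

theorem E.ctx {u v : Word A} (h : E R u v) (a b : Word A) : E R (a ++ (u ++ b)) (a ++ (v ++ b)) := by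
  obtain ⟨N, h⟩ := h
  exact ⟨_, h.ctx a b le_rfl⟩

theorem E.mk (hR : ∀ r ∈ R, inv r ∈ R) {u v : Word A} (h : FreeGroup.mk u = FreeGroup.mk v) :
    E R u v := by
  obtain ⟨c, h1, h2⟩ := FreeGroup.Red.exact.1 h
  exact E.trans ⟨_, K.red h1⟩ (E.symm hR ⟨_, K.red h2⟩)

theorem exists_word (g : FreeGroup A) : ∃ w : Word A, FreeGroup.mk w = g := by
  classical
  exact ⟨g.toWord, FreeGroup.mk_toWord⟩

/-- the words homotopic to the empty word form a normal subgroup -/
def NS (R : Set (Word A)) (hR : ∀ r ∈ R, inv r ∈ R) : Subgroup (FreeGroup A) where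
  carrier := {g | ∀ w, FreeGroup.mk w = g → E R w []}
  one_mem' := by
    intro w hw
    exact E.mk hR (by rw [hw, FreeGroup.one_eq_mk])
  mul_mem' := by
    intro a b ha hb w hw
    obtain ⟨u, hu⟩ := exists_word a
    obtain ⟨v, hv⟩ := exists_word b
    have h1 : E R w (u ++ v) := E.mk hR (by rw [hw, ← hu, ← hv, FreeGroup.mul_mk])
    have h2 := (ha u hu).ctx [] v
    have h3 := hb v hv
    refine h1.trans (E.trans ?_ h3)
    simpa using h2
  inv_mem' := by
    intro a ha w hw
    obtain ⟨u, hu⟩ := exists_word a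
    have h1 : E R w (inv u) := E.mk hR (by rw [hw, mk_inv, hu])
    have h2 := ((ha u hu).symm hR).ctx (inv u) []
    have h3 : E R (inv u ++ u) [] := E.mk hR (by
      rw [← FreeGroup.mul_mk, mk_inv, inv_mul_cancel, FreeGroup.one_eq_mk])
    refine h1.trans (E.trans ?_ h3)
    simpa using h2

theorem NS_normal (hR : ∀ r ∈ R, inv r ∈ R) : (NS R hR).Normal := by
  constructor
  intro n hn g w hw
  obtain ⟨u, hu⟩ := exists_word g
  obtain ⟨v, hv⟩ := exists_word n
  have h1 : E R w (u ++ (v ++ inv u)) := E.mk hR (by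
    rw [hw, ← FreeGroup.mul_mk, ← FreeGroup.mul_mk, mk_inv, hu, hv, mul_assoc])
  have h2 := (hn v hv).ctx u (inv u)
  have h3 : E R (u ++ inv u) [] := E.mk hR (by
    rw [← FreeGroup.mul_mk, mk_inv, mul_inv_cancel, FreeGroup.one_eq_mk])
  refine h1.trans (h2.trans ?_)
  simpa using h3

theorem null_E (hR : ∀ r ∈ R, inv r ∈ R) {w : Word A} (h : Null R w) : E R w [] := by
  have hle : Subgroup.normalClosure (Rels R) ≤ NS R hR := by
    have := NS_normal hR
    refine Subgroup.normalClosure_le_normal ?_
    rintro g ⟨r, hr, rfl⟩ w hw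
    refine (E.mk hR hw).trans ⟨r.length, Relation.ReflTransGen.single ⟨?_, le_rfl, by simp⟩⟩
    exact ⟨[], [], r, [], by simp, by simp, Or.inr (by simpa [inv] using hr)⟩
  exact hle h w rfl

theorem E_of_null (hR : ∀ r ∈ R, inv r ∈ R) {u v : Word A} (h : Null R (u ++ inv v)) : E R u v := by
  have h1 : E R u ((u ++ inv v) ++ v) := E.mk hR (by
    rw [← FreeGroup.mul_mk, ← FreeGroup.mul_mk, mk_inv, inv_mul_cancel_right])
  have h2 := (null_E hR h).ctx [] v
  refine h1.trans ?_
  simpa using h2

end

/-- translation letter by letter -/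
theorem length_flatMap_le {α β : Type} (f : α → List β) (c : ℕ) (hf : ∀ x, (f x).length ≤ c)
    (l : List α) : (l.flatMap f).length ≤ c * l.length := by
  induction l with
  | nil => simp
  | cons x l ih =>
    rw [List.flatMap_cons, List.length_append, List.length_cons, mul_add, mul_one]
    have := hf x
    omega

/-- the transfer of a linear filling statement to an arbitrary presentation -/
theorem transfer (hgen : ∀ g : G, ∃ w : List Lt, ev w = g) (L D : ℕ)
    (h : ∀ w : List Lt, ev w = 1 → H L (D * (w.length + 1)) w [])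
    {A : Type} (R : Set (Word A)) (hP : Presents R G) :
    ∃ C : ℕ, ∀ w : Word A, Null R w → FillsIn R w (C * w.length + C) := by
  obtain ⟨hA, hRf, hR, _, ⟨φ⟩⟩ := hP
  let val : FreeGroup A →* G := φ.toMonoidHom.comp (QuotientGroup.mk' (Subgroup.normalClosure (Rels R)))
  have hval : ∀ x, val x = 1 ↔ x ∈ Subgroup.normalClosure (Rels R) := by
    intro x
    show φ (QuotientGroup.mk x) = 1 ↔ _
    rw [← QuotientGroup.eq_one_iff]
    exact map_eq_one_iff φ φ.injective
  have hE : ∀ u v : Word A, val (FreeGroup.mk u) = val (FreeGroup.mk v) → E R u v := by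
    intro u v huv
    apply E_of_null hR
    show FreeGroup.mk (u ++ inv v) ∈ _
    rw [← hval, ← FreeGroup.mul_mk, mk_inv, map_mul, map_inv, huv, mul_inv_cancel]
  have hsurj : ∀ g : G, ∃ u : Word A, val (FreeGroup.mk u) = g := by
    intro g
    obtain ⟨x, hx⟩ := QuotientGroup.mk_surjective (φ.symm g)
    obtain ⟨u, hu⟩ := exists_word x
    refine ⟨u, ?_⟩
    rw [hu]
    show φ (QuotientGroup.mk x) = g
    rw [hx]
    exact φ.apply_symm_apply g
  choose t ht using fun x : A × Bool => hgen (val (FreeGroup.mk [x]))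
  choose s hs using fun y : Lt => hsurj y.1
  have hT : ∀ w : Word A, ev (w.flatMap t) = val (FreeGroup.mk w) := by
    intro w
    induction w with
    | nil => exact (map_one val).symm
    | cons x w ih =>
      rw [List.flatMap_cons, ev_append, ih, ht, ← map_mul, FreeGroup.mul_mk]
      rfl
  have hS : ∀ u : List Lt, val (FreeGroup.mk (u.flatMap s)) = ev u := by
    intro u
    induction u with
    | nil => exact map_one val
    | cons x u ih =>
      rw [List.flatMap_cons, ← FreeGroup.mul_mk, map_mul, ih, hs, ev_cons]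
  -- bounds
  have hfin := M7.finite_Lt
  obtain ⟨a, ha⟩ : ∃ a : ℕ, ∀ x : A × Bool, (t x).length ≤ a := by
    obtain ⟨a, ha⟩ := (Set.finite_range fun x : A × Bool => (t x).length).bddAbove
    exact ⟨a, fun x => ha ⟨x, rfl⟩⟩
  obtain ⟨b, hb⟩ : ∃ b : ℕ, ∀ y : Lt, (s y).length ≤ b := by
    obtain ⟨b, hb⟩ := (Set.finite_range fun y : Lt => (s y).length).bddAbove
    exact ⟨b, fun x => hb ⟨x, rfl⟩⟩
  have haT := length_flatMap_le t a ha
  have hbS := length_flatMap_le s b hb
  obtain ⟨M1, hM1⟩ : ∃ M1 : ℕ, ∀ x : A × Bool, K R M1 [x] ((t x).flatMap s) := by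
    have hx : ∀ x : A × Bool, E R [x] ((t x).flatMap s) := by
      intro x
      apply hE
      rw [hS, ht]
    choose f hf using hx
    obtain ⟨a, ha⟩ := (Set.finite_range f).bddAbove
    exact ⟨a, fun x => (hf x).mono (ha ⟨x, rfl⟩)⟩
  obtain ⟨M2, hM2⟩ : ∃ M2 : ℕ, ∀ u v : List Lt, u.length ≤ L → v.length ≤ L → ev u = ev v →
      K R M2 (u.flatMap s) (v.flatMap s) := by
    have hW : ({u : List Lt | u.length ≤ L}).Finite := List.finite_length_le _ L
    have hx : ∀ z : List Lt × List Lt, ev z.1 = ev z.2 →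
        ∃ N, K R N (z.1.flatMap s) (z.2.flatMap s) := by
      intro z hz
      apply hE
      rw [hS, hS, hz]
    have hx' : ∀ z : List Lt × List Lt, ∃ N, ev z.1 = ev z.2 →
        K R N (z.1.flatMap s) (z.2.flatMap s) := by
      intro z
      by_cases hz : ev z.1 = ev z.2
      · obtain ⟨N, hN⟩ := hx z hz
        exact ⟨N, fun _ => hN⟩
      · exact ⟨0, fun h => absurd h hz⟩
    choose f hf using hx'
    obtain ⟨B, hB⟩ := ((hW.prod hW).image f).bddAbove
    refine ⟨B, fun u v hu hv huv => (hf (u, v) huv).mono (hB ⟨(u, v), ⟨hu, hv⟩, rfl⟩)⟩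
  -- simulation
  have hsim : ∀ {n : ℕ} {u v : List Lt}, H L n u v → K R (b * n + M2) (u.flatMap s) (v.flatMap s) := by
    intro n u v huv
    induction huv with
    | refl => exact K.refl _
    | tail _ h ih =>
      obtain ⟨hst, h1, h2⟩ := h
      obtain ⟨p, q, x, y, hx, hy, hxy⟩ := hst
      refine ih.trans ?_
      simp only [List.flatMap_append]
      refine (hM2 x y hx hy hxy).ctx _ _ ?_
      have e1 := hbS p
      have e2 := hbS q
      have e3 : b * (p.length + q.length) ≤ b * n := by
        apply Nat.mul_le_mul_left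
        simp only [List.length_append] at h1
        omega
      rw [mul_add] at e3
      omega
  -- to the translated word
  have hto : ∀ w : Word A, K R ((b * a + 1) * w.length + M1) w ((w.flatMap t).flatMap s) := by
    intro w
    induction w with
    | nil => exact K.refl _
    | cons x w ih =>
      rw [List.flatMap_cons, List.flatMap_append]
      have k1 := ih.ctx [x] [] (m := (b * a + 1) * (x :: w).length + M1) (by
        simp only [List.length_cons, List.length_nil]
        rw [mul_add, mul_one]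
        have : 1 ≤ b * a + 1 := by omega
        omega)
      have k2 := (hM1 x).ctx [] ((w.flatMap t).flatMap s)
        (m := (b * a + 1) * (x :: w).length + M1) (by
        have e1 := hbS (w.flatMap t)
        have e2 : b * (w.flatMap t).length ≤ b * (a * w.length) := Nat.mul_le_mul_left _ (haT w)
        rw [← mul_assoc] at e2
        have e3 : (b * a + 1) * (x :: w).length = b * a * w.length + w.length + (b * a + 1) := by
          simp only [List.length_cons]; ring
        rw [e3]
        simp only [List.length_nil]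
        omega)
      simp only [List.append_nil, List.nil_append] at k1 k2
      exact k1.trans k2
  refine ⟨(b * a + 1 + M1) + (b * D * a + b * D + M2), fun w hw => ?_⟩
  have h1 := hto w
  have h2 : H L (D * ((w.flatMap t).length + 1)) (w.flatMap t) [] := by
    apply h
    rw [hT]
    exact (hval _).2 hw
  have h3 := hsim h2
  have h4 : K R (((b * a + 1 + M1) + (b * D * a + b * D + M2)) * w.length +
      ((b * a + 1 + M1) + (b * D * a + b * D + M2))) w [] := by
    refine (h1.mono ?_).trans (h3.mono ?_)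
    · have e3 : ((b * a + 1 + M1) + (b * D * a + b * D + M2)) * w.length +
          ((b * a + 1 + M1) + (b * D * a + b * D + M2)) =
          ((b * a + 1) * w.length + M1) + (M1 * w.length + (b * D * a + b * D + M2) * w.length +
            (b * a + 1) + (b * D * a + b * D + M2)) := by ring
      rw [e3]
      exact Nat.le_add_right _ _
    · have e1 : b * (D * ((w.flatMap t).length + 1)) ≤ b * (D * (a * w.length + 1)) := by
        apply Nat.mul_le_mul_left
        apply Nat.mul_le_mul_left
        have := haT w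
        omega
      have e2 : b * (D * (a * w.length + 1)) = b * D * a * w.length + b * D := by ring
      rw [e2] at e1
      have e3 : ((b * a + 1 + M1) + (b * D * a + b * D + M2)) * w.length +
          ((b * a + 1 + M1) + (b * D * a + b * D + M2)) =
          (b * D * a * w.length + b * D) + M2 + ((b * a + 1 + M1) * w.length +
            b * D * w.length + M2 * w.length + (b * a + 1 + M1) + b * D * a) := by ring
      rw [e3]
      omega
  apply h4.seq
  have e4 : ((b * a + 1 + M1) + (b * D * a + b * D + M2)) * w.length +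
      ((b * a + 1 + M1) + (b * D * a + b * D + M2)) =
      w.length + ((b * a + M1 + (b * D * a + b * D + M2)) * w.length +
        ((b * a + 1 + M1) + (b * D * a + b * D + M2))) := by ring
  rw [e4]
  exact Nat.le_add_right _ _

/-- **SL(3,Z) has linear filling length**, for every finite presentation -/
theorem main : (∃ (A : Type) (R : Set (Word A)), Presents R G) ∧
    ∀ (A : Type) (R : Set (Word A)), Presents R G →
      ∃ F : ℕ → ℕ, IsFL R F ∧ ∃ C : ℕ, ∀ n, F n ≤ C * n + C := by
  have h2 := Pool.Agent.H68.SLF.M2 Pool.Agent.H20.SLF.M1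
  obtain ⟨hgen, L, D, h⟩ := Pool.Agent.H68.SLF.M46 (Pool.Agent.H95.SLF.M3 h2)
  refine ⟨?_, fun A R hP => ?_⟩
  · obtain ⟨k, R0, ⟨φ⟩, _⟩ := Pool.Agent.H68.SLF.M7 hgen L D h
    obtain ⟨M, hM⟩ : ∃ M : ℕ, ∀ r ∈ R0, r.toWord.length ≤ M :=
      ⟨R0.sup fun r => r.toWord.length, fun r hr => Finset.le_sup (f := fun r => r.toWord.length) hr⟩
    let R : Set (Word (Fin k)) := {w | w.length ≤ M ∧
      FreeGroup.mk w ∈ Subgroup.normalClosure (R0 : Set (FreeGroup (Fin k)))}
    have hcl : Subgroup.normalClosure (R0 : Set (FreeGroup (Fin k))) =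
        Subgroup.normalClosure (Rels R) := by
      apply le_antisymm
      · refine Subgroup.normalClosure_le_normal ?_
        intro r hr
        refine Subgroup.subset_normalClosure ⟨r.toWord, ⟨hM r hr, ?_⟩, FreeGroup.mk_toWord⟩
        rw [FreeGroup.mk_toWord]
        exact Subgroup.subset_normalClosure hr
      · refine Subgroup.normalClosure_le_normal ?_
        rintro g ⟨r, hr, rfl⟩
        exact hr.2
    refine ⟨Fin k, R, inferInstance, ?_, ?_, ?_, ⟨(QuotientGroup.quotientMulEquivOfEq hcl).symm.trans φ⟩⟩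
    · exact (List.finite_length_le _ M).subset fun w hw => hw.1
    · rintro r ⟨h1, h3⟩
      refine ⟨by simpa [inv] using h1, ?_⟩
      rw [mk_inv]
      exact inv_mem h3
    · rintro u v ⟨h1, h3⟩
      refine ⟨by simp only [List.length_append] at h1 ⊢; omega, ?_⟩
      rw [← FreeGroup.mul_mk] at h3 ⊢
      have h5 := Subgroup.normalClosure_normal.conj_mem _ h3 (FreeGroup.mk u)⁻¹
      have h6 : FreeGroup.mk v * FreeGroup.mk u =
          (FreeGroup.mk u)⁻¹ * (FreeGroup.mk u * FreeGroup.mk v) * ((FreeGroup.mk u)⁻¹)⁻¹ := by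
        group
      rw [h6]
      exact h5
  · obtain ⟨C, hC⟩ := transfer hgen L D h R hP
    have hne : ∀ n, C * n + C ∈ {N | ∀ w, Null R w → w.length ≤ n → FillsIn R w N} := by
      intro n w hw hwn
      obtain ⟨m, s, h0, hm, hl, hs⟩ := hC w hw
      refine ⟨m, s, h0, hm, fun i hi => (hl i hi).trans ?_, hs⟩
      have := Nat.mul_le_mul_left C hwn
      omega
    refine ⟨fun n => sInf {N | ∀ w, Null R w → w.length ≤ n → FillsIn R w N}, fun n => ?_,
      C, fun n => Nat.sInf_le (hne n)⟩
    exact ⟨Nat.sInf_mem ⟨_, hne n⟩, fun N hN => Nat.sInf_le hN⟩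

end Pool.Agent.H31.INS.Slf
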