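import Pool.Agent.H9.UQL.Defs

/-! Own wording of the quasi-local Cartan theorem: conversions. -/

set_option autoImplicit false

namespace Pool.Agent.H31.INS.Uql

open Pool.Agent.H9.UQL

noncomputable section

/-- the Hilbert space `ℓ²(X)` -/
abbrev L2 (X : Type) := lp (fun _ : X => ℂ) 2

/-- the bounded operators on `ℓ²(X)` -/
abbrev Op (X : Type) := L2 X →L[ℂ] L2 X

/-- the projection `χ_A` -/
def chi {X : Type} (A : Set X) : Op X :=
  LinearMap.mkContinuous
    { toFun := fun v => ⟨A.indicator v, (lp.memℓp v).mono' fun x => norm_indicator_le_norm_self v x⟩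
      map_add' := fun v w => Subtype.ext (Set.indicator_add A v w)
      map_smul' := fun c v => Subtype.ext (Set.indicator_const_smul A c v) } 1
    fun v => by
      rw [one_mul]
      exact lp.norm_mono two_ne_zero fun x => norm_indicator_le_norm_self v x

/-- quasi-local operators -/
def QuasiLocal {X : Type} [MetricSpace X] (T : Op X) : Prop :=
  ∀ ε : ℝ, 0 < ε → ∃ R : ℝ, 0 < R ∧ ∀ A B : Set X,
    (∃ R' > R, ∀ a ∈ A, ∀ b ∈ B, R' ≤ dist a b) → ‖chi A * T * chi B‖ < ε

/-- the diagonal -/
def ellInf (X : Type) : Set (Op X) :=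
  {T | ∃ f : X → ℂ, (∃ M : ℝ, ∀ x, ‖f x‖ ≤ M) ∧ ∀ v x, T v x = f x * v x}

theorem chi_apply {X : Type} (A : Set X) (v : L2 X) (x : X) : (chi A v) x = A.indicator v x := rfl

theorem chi_supp {X : Type} {A : Set X} {v : L2 X} (h : ∀ x, x ∉ A → v x = 0) : chi A v = v := by
  apply lp.ext
  funext x
  rw [chi_apply]
  by_cases hx : x ∈ A
  · rw [Set.indicator_of_mem hx]
  · rw [Set.indicator_of_notMem hx, h x hx]

theorem norm_chi {X : Type} (A : Set X) (v : L2 X) : ‖chi A v‖ ≤ ‖v‖ :=
  lp.norm_mono two_ne_zero fun x => norm_indicator_le_norm_self v x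

theorem inner_chi {X : Type} (A : Set X) (v w : L2 X) : inner ℂ (chi A v) w = inner ℂ v (chi A w) := by
  rw [lp.inner_eq_tsum, lp.inner_eq_tsum]
  refine tsum_congr fun x => ?_
  rw [chi_apply, chi_apply]
  by_cases hx : x ∈ A
  · rw [Set.indicator_of_mem hx, Set.indicator_of_mem hx]
  · rw [Set.indicator_of_notMem hx, Set.indicator_of_notMem hx, inner_zero_left, inner_zero_right]

theorem qloc_of {X : Type} [MetricSpace X] {T : Op X} (h : QuasiLocal T) : QLoc T := by
  intro ε hε
  obtain ⟨R, hR, H⟩ := h ε hε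
  refine ⟨R + 1, by linarith, fun C D hCD v w hv hw => ?_⟩
  have h1 := H C D ⟨R + 1, by linarith, fun a ha b hb => (hCD a ha b hb).le⟩
  have h2 : inner ℂ w (T v) = inner ℂ w ((chi C * T * chi D) v) := by
    show inner ℂ w (T v) = inner ℂ w (chi C (T (chi D v)))
    rw [← inner_chi, chi_supp hw, chi_supp hv]
  rw [h2]
  calc ‖inner ℂ w ((chi C * T * chi D) v)‖ ≤ ‖w‖ * ‖(chi C * T * chi D) v‖ := norm_inner_le_norm _ _
    _ ≤ ‖w‖ * (ε * ‖v‖) := by
        refine mul_le_mul_of_nonneg_left ?_ (norm_nonneg _)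
        exact ((chi C * T * chi D).le_opNorm v).trans
          (mul_le_mul_of_nonneg_right h1.le (norm_nonneg _))
    _ = ε * ‖w‖ * ‖v‖ := by ring

theorem qloc_to {X : Type} [MetricSpace X] {T : Op X} (h : QLoc T) : QuasiLocal T := by
  intro ε hε
  obtain ⟨R, hR, H⟩ := h (ε / 2) (by linarith)
  refine ⟨R, hR, fun A B ⟨R', hR', hd⟩ => ?_⟩
  refine lt_of_le_of_lt ?_ (show ε / 2 < ε by linarith)
  refine ContinuousLinearMap.opNorm_le_bound _ (by linarith) fun v => ?_
  have hz : ∀ x, x ∉ B → (chi B v) x = 0 := fun x hx => by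
    rw [chi_apply, Set.indicator_of_notMem hx]
  set u : L2 X := (chi A * T * chi B) v with hu
  have hz2 : ∀ x, x ∉ A → u x = 0 := fun x hx => by
    show (chi A (T (chi B v))) x = 0
    rw [chi_apply, Set.indicator_of_notMem hx]
  have h1 := H A B (fun a ha b hb => lt_of_lt_of_le hR' (hd a ha b hb)) (chi B v) u hz hz2
  have h2 : inner ℂ u (T (chi B v)) = inner ℂ u u := by
    rw [← chi_supp hz2, inner_chi, chi_supp hz2]
    rfl
  rw [h2] at h1
  have h3 : ‖u‖ * ‖u‖ ≤ ε / 2 * ‖u‖ * ‖v‖ := by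
    have h4 : ‖(inner ℂ u u : ℂ)‖ = ‖u‖ * ‖u‖ := by
      rw [inner_self_eq_norm_sq_to_K]
      simp [_root_.sq]
    rw [h4] at h1
    refine h1.trans ?_
    exact mul_le_mul_of_nonneg_left (norm_chi B v) (by positivity)
  rcases (norm_nonneg u).eq_or_lt with h0 | h0
  · rw [← h0]; positivity
  · have h5 : ‖u‖ * ‖u‖ ≤ (ε / 2 * ‖v‖) * ‖u‖ := by linarith
    exact le_of_mul_le_mul_right h5 h0

open Classical in
theorem diag_of {X : Type} {T : Op X} (h : T ∈ ellInf X) (x y : X) (hxy : x ≠ y) :
    (T (lp.single 2 x (1 : ℂ) : L2 X)) y = 0 := by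
  classical
  obtain ⟨f, _, hf⟩ := h
  rw [hf, lp.single_apply_ne _ _ _ hxy.symm, mul_zero]

open Classical in
theorem diag_to {X : Type} {T : Op X}
    (h : ∀ x y : X, x ≠ y → (T (lp.single 2 x (1 : ℂ) : L2 X)) y = 0) : T ∈ ellInf X := by
  classical
  have key : ∀ x : X, (ContinuousLinearMap.adjoint T) (lp.single 2 x (1 : ℂ) : L2 X) =
      (starRingEnd ℂ) ((T (lp.single 2 x (1 : ℂ) : L2 X)) x) • (lp.single 2 x (1 : ℂ) : L2 X) := by
    intro x
    apply lp.ext
    funext y
    have h1 : (ContinuousLinearMap.adjoint T (lp.single 2 x (1 : ℂ) : L2 X)) y =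
        inner ℂ (lp.single 2 y (1 : ℂ) : L2 X) (ContinuousLinearMap.adjoint T (lp.single 2 x (1 : ℂ) : L2 X)) := by
      rw [lp.inner_single_left]; simp
    rw [h1, ContinuousLinearMap.adjoint_inner_right, lp.inner_single_right]
    rw [lp.coeFn_smul, Pi.smul_apply]
    by_cases hxy : y = x
    · subst hxy
      rw [lp.single_apply_self]
      simp
    · rw [h y x hxy, lp.single_apply_ne _ _ _ hxy]
      simp
  refine ⟨fun x => (T (lp.single 2 x (1 : ℂ) : L2 X)) x, ⟨‖T‖, fun x => ?_⟩, fun v x => ?_⟩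
  · refine (lp.norm_apply_le_norm two_ne_zero _ x).trans ((T.le_opNorm _).trans ?_)
    rw [lp.norm_single (by norm_num), norm_one, mul_one]
  · have h1 : (T v) x = inner ℂ (lp.single 2 x (1 : ℂ) : L2 X) (T v) := by
      rw [lp.inner_single_left]; simp
    rw [h1, ← ContinuousLinearMap.adjoint_inner_left, key x, inner_smul_left, lp.inner_single_left]
    simp

theorem sqrt_sub_sq_le {p q : ℝ} (hp : 0 ≤ p) (hq : 0 ≤ q) : (√p - √q) ^ 2 ≤ |p - q| := by
  have h1 : p - q = (√p - √q) * (√p + √q) := by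
    have e1 := Real.mul_self_sqrt hp
    have e2 := Real.mul_self_sqrt hq
    nlinarith
  rw [h1, abs_mul, ← sq_abs, _root_.sq]
  refine mul_le_mul_of_nonneg_left ?_ (abs_nonneg _)
  have h2 := Real.sqrt_nonneg p
  have h3 := Real.sqrt_nonneg q
  rw [abs_of_nonneg (by linarith : 0 ≤ √p + √q), abs_le]
  constructor <;> linarith

open Classical in
/-- a finitely supported vector -/
def vec {X : Type} (s : Finset X) (f : X → ℝ) : L2 X :=
  ∑ z ∈ s, (lp.single 2 z (f z : ℂ) : L2 X)

theorem norm_vec {X : Type} (s : Finset X) (f : X → ℝ) : ‖vec s f‖ ^ 2 = ∑ z ∈ s, f z ^ 2 := by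
  classical
  have h := lp.norm_sum_single (p := 2) (by norm_num : 0 < (2 : ENNReal).toReal)
    (fun z : X => (f z : ℂ)) s
  simp only [ENNReal.toReal_ofNat, Real.rpow_ofNat] at h
  unfold vec
  rw [h]
  refine Finset.sum_congr rfl fun z _ => ?_
  rw [Complex.norm_real, Real.norm_eq_abs, sq_abs]

theorem vec_apply {X : Type} (s : Finset X) (f : X → ℝ) (z : X) (hz : z ∉ s) : (vec s f) z = 0 := by
  classical
  unfold vec
  rw [lp.coeFn_sum, Finset.sum_apply]
  refine Finset.sum_eq_zero fun y hy => ?_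
  rw [lp.single_apply_ne]
  rintro rfl
  exact hz hy

theorem vec_mono {X : Type} {s t : Finset X} (h : s ⊆ t) {f : X → ℝ} (hf : ∀ z, z ∉ s → f z = 0) :
    vec s f = vec t f := by
  classical
  unfold vec
  refine Finset.sum_subset h fun z _ hz => ?_
  rw [hf z hz, Complex.ofReal_zero, lp.single_zero]

theorem vec_sub {X : Type} (s : Finset X) (f g : X → ℝ) : vec s f - vec s g = vec s (fun z => f z - g z) := by
  classical
  unfold vec
  rw [← Finset.sum_sub_distrib]
  refine Finset.sum_congr rfl fun z _ => ?_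
  rw [Complex.ofReal_sub, lp.single_sub]

/-- Property A (Higson-Roe) -/
def PropertyA (X : Type) [MetricSpace X] : Prop :=
  ∀ R ε : ℝ, 0 < R → 0 < ε → ∃ S : ℝ, 0 < S ∧ ∃ ξ : X → L2 X, (∀ x, ‖ξ x‖ = 1) ∧
    (∀ x z, ξ x z ≠ 0 → dist x z ≤ S) ∧ ∀ x y, dist x y ≤ R → ‖ξ x - ξ y‖ ≤ ε

theorem propA_of {X : Type} [MetricSpace X] (h : ∀ R : ℝ, 0 < R → ∀ ε : ℝ, 0 < ε → YuA X R ε) :
    PropertyA X := by
  classical
  intro R ε hR hε
  obtain ⟨S, A, h1, h2, h3⟩ := h (R + 1) (by linarith) (ε ^ 2 / 2) (by positivity)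
  -- the fibres
  let a : X → X → ℕ := fun x z => ((A x).filter fun p => p.1 = z).card
  let f : X → X → ℝ := fun x z => √((a x z : ℝ) / ((A x).card : ℝ))
  let s : X → Finset X := fun x => (A x).image Prod.fst
  have hcard : ∀ x, 0 < (A x).card := fun x => Finset.card_pos.2 ⟨_, h1 x⟩
  have hcardR : ∀ x, (0 : ℝ) < ((A x).card : ℝ) := fun x => by exact_mod_cast hcard x
  have ha0 : ∀ x z, z ∉ s x → a x z = 0 := by
    intro x z hz
    apply Finset.card_eq_zero.2
    apply Finset.filter_eq_empty_iff.2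
    intro p hp hpz
    exact hz (Finset.mem_image.2 ⟨p, hp, hpz⟩)
  have hf0 : ∀ x z, z ∉ s x → f x z = 0 := by
    intro x z hz
    simp only [f, ha0 x z hz, Nat.cast_zero, zero_div, Real.sqrt_zero]
  have hsum : ∀ (x : X) (t : Finset X), s x ⊆ t → ∑ z ∈ t, a x z = (A x).card := by
    intro x t ht
    exact (Finset.card_eq_sum_card_fiberwise (f := Prod.fst) (s := A x) (t := t)
      fun p hp => ht (Finset.mem_image_of_mem _ hp)).symm
  refine ⟨max S 1, lt_of_lt_of_le one_pos (le_max_right _ _), fun x => vec (s x) (f x), ?_, ?_, ?_⟩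
  · intro x
    have h4 : ‖vec (s x) (f x)‖ ^ 2 = 1 := by
      rw [norm_vec]
      have h5 : ∀ z ∈ s x, f x z ^ 2 = (a x z : ℝ) / ((A x).card : ℝ) := by
        intro z _
        exact Real.sq_sqrt (by positivity)
      rw [Finset.sum_congr rfl h5, ← Finset.sum_div, ← Nat.cast_sum, hsum x _ le_rfl,
        div_self (hcardR x).ne']
    have h6 := norm_nonneg (vec (s x) (f x))
    nlinarith
  · intro x z hz
    have hzs : z ∈ s x := by
      by_contra hcon
      exact hz (vec_apply _ _ _ hcon)
    obtain ⟨p, hp, rfl⟩ := Finset.mem_image.1 hzs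
    rw [dist_comm]
    exact (h2 x p hp).trans (le_max_left _ _)
  · intro x y hxy
    have h4 := h3 x y (by linarith)
    set t : Finset X := s x ∪ s y with ht
    have e1 : vec (s x) (f x) = vec t (f x) := vec_mono Finset.subset_union_left (hf0 x)
    have e2 : vec (s y) (f y) = vec t (f y) := vec_mono Finset.subset_union_right (hf0 y)
    show ‖vec (s x) (f x) - vec (s y) (f y)‖ ≤ ε
    rw [e1, e2, vec_sub]
    set D : ℕ := ((A x \ A y) ∪ (A y \ A x)).card with hD
    set m : ℝ := ((A x).card : ℝ) with hm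
    set n : ℝ := ((A y).card : ℝ) with hn
    have hm0 : 0 < m := hcardR x
    have hn0 : 0 < n := hcardR y
    -- the differences of the fibres
    let d : X → ℕ := fun z => (((A x \ A y) ∪ (A y \ A x)).filter fun p => p.1 = z).card
    have hd1 : ∀ z, |(a x z : ℝ) - a y z| ≤ d z := by
      intro z
      have g1 : a x z ≤ a y z + d z := by
        have : (A x).filter (fun p => p.1 = z) ⊆ (A y).filter (fun p => p.1 = z) ∪
            ((A x \ A y) ∪ (A y \ A x)).filter (fun p => p.1 = z) := by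
          intro p hp
          simp only [Finset.mem_union, Finset.mem_filter, Finset.mem_sdiff] at hp ⊢
          tauto
        exact (Finset.card_le_card this).trans (Finset.card_union_le _ _)
      have g2 : a y z ≤ a x z + d z := by
        have : (A y).filter (fun p => p.1 = z) ⊆ (A x).filter (fun p => p.1 = z) ∪
            ((A x \ A y) ∪ (A y \ A x)).filter (fun p => p.1 = z) := by
          intro p hp
          simp only [Finset.mem_union, Finset.mem_filter, Finset.mem_sdiff] at hp ⊢
          tauto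
        exact (Finset.card_le_card this).trans (Finset.card_union_le _ _)
      have g1' : (a x z : ℝ) ≤ a y z + d z := by exact_mod_cast g1
      have g2' : (a y z : ℝ) ≤ a x z + d z := by exact_mod_cast g2
      rw [abs_le]
      constructor <;> linarith
    have hd2 : ∑ z ∈ t, d z = D := by
      refine (Finset.card_eq_sum_card_fiberwise (f := Prod.fst)
        (s := (A x \ A y) ∪ (A y \ A x)) (t := t) fun p hp => ?_).symm
      have hp' : p ∈ (A x \ A y) ∪ (A y \ A x) := hp
      rw [Finset.mem_union, Finset.mem_sdiff, Finset.mem_sdiff] at hp'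
      rcases hp' with hp | hp
      · exact Finset.mem_union_left _ (Finset.mem_image_of_mem _ hp.1)
      · exact Finset.mem_union_right _ (Finset.mem_image_of_mem _ hp.1)
    have hmn : |n - m| ≤ D := by
      have g1 : (A x).card ≤ (A y).card + D := by
        have : A x ⊆ A y ∪ ((A x \ A y) ∪ (A y \ A x)) := by
          intro p hp
          simp only [Finset.mem_union, Finset.mem_sdiff]
          tauto
        exact (Finset.card_le_card this).trans (Finset.card_union_le _ _)
      have g2 : (A y).card ≤ (A x).card + D := by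
        have : A y ⊆ A x ∪ ((A x \ A y) ∪ (A y \ A x)) := by
          intro p hp
          simp only [Finset.mem_union, Finset.mem_sdiff]
          tauto
        exact (Finset.card_le_card this).trans (Finset.card_union_le _ _)
      have g1' : m ≤ n + D := by rw [hm, hn]; exact_mod_cast g1
      have g2' : n ≤ m + D := by rw [hm, hn]; exact_mod_cast g2
      rw [abs_le]
      constructor <;> linarith
    have hI : ((A x ∩ A y).card : ℝ) ≤ m := by
      rw [hm]; exact_mod_cast Finset.card_le_card Finset.inter_subset_left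
    have hDm : (D : ℝ) ≤ ε ^ 2 / 2 * m := by
      refine h4.le.trans ?_
      exact mul_le_mul_of_nonneg_left hI (by positivity)
    have hmain : ‖vec t (fun z => f x z - f y z)‖ ^ 2 ≤ ε ^ 2 := by
      rw [norm_vec]
      have hterm : ∀ z ∈ t, (f x z - f y z) ^ 2 ≤ (d z : ℝ) / m + (a y z : ℝ) * (|n - m| / (n * m)) := by
        intro z _
        refine (sqrt_sub_sq_le (by positivity) (by positivity)).trans ?_
        have g1 : (a x z : ℝ) / m - (a y z : ℝ) / n =
            ((a x z : ℝ) - a y z) / m + (a y z : ℝ) * ((n - m) / (n * m)) := by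
          field_simp
          ring
        show |(a x z : ℝ) / m - (a y z : ℝ) / n| ≤ _
        rw [g1]
        refine (abs_add_le _ _).trans (add_le_add ?_ ?_)
        · rw [abs_div, abs_of_pos hm0]
          exact div_le_div_of_nonneg_right (hd1 z) hm0.le
        · rw [abs_mul, abs_of_nonneg (Nat.cast_nonneg _), abs_div,
            abs_of_pos (mul_pos hn0 hm0)]
      refine (Finset.sum_le_sum hterm).trans ?_
      rw [Finset.sum_add_distrib, ← Finset.sum_div, ← Finset.sum_mul, ← Nat.cast_sum,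
        ← Nat.cast_sum, hd2, hsum y t Finset.subset_union_right]
      have g2 : n * (|n - m| / (n * m)) = |n - m| / m := by
        field_simp
      show (D : ℝ) / m + n * (|n - m| / (n * m)) ≤ ε ^ 2
      rw [g2, ← add_div, div_le_iff₀ hm0]
      linarith
    exact le_of_sq_le_sq' hmain hε.le
where
  le_of_sq_le_sq' {a b : ℝ} (h : a ^ 2 ≤ b ^ 2) (hb : 0 ≤ b) : a ≤ b := by
    exact le_of_abs_le ((sq_le_sq.1 h).trans (le_of_eq (abs_of_nonneg hb)))

/-- the regularity of the diagonal in the words of the problem file gives the frozen hypothesis -/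
theorem conv {X : Type} [MetricSpace X]
    (h : {T | QuasiLocal T} ⊆ closure ((StarAlgebra.adjoin ℂ
      {n : Op X | n ∈ {T | QuasiLocal T} ∧ ∀ b ∈ ellInf X, n * b * star n ∈ ellInf X ∧
        star n * b * n ∈ ellInf X}) : Set (Op X)))
    (T : l2 X →L[ℂ] l2 X) (hT : QLoc T) :
    T ∈ closure ((StarAlgebra.adjoin ℂ (normSet X)) : Set (l2 X →L[ℂ] l2 X)) := by
  have h1 := h (qloc_to hT)
  refine closure_mono ?_ h1
  intro S hS
  refine StarAlgebra.adjoin_le ?_ hS
  intro n hn
  apply StarAlgebra.subset_adjoin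
  refine ⟨qloc_of hn.1, fun a ha => ?_⟩
  obtain ⟨h2, h3⟩ := hn.2 a (diag_to ha)
  exact ⟨fun x y hxy => diag_of h2 x y hxy, fun x y hxy => diag_of h3 x y hxy⟩

end

end Pool.Agent.H31.INS.Uql
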